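import Pool.Agent.Results.MP_b5ab38_an.NormsAndBumps

/-!
Spaces containing `ℓ_p`, `p` not an even integer, have no equivalent norm and no continuous bump
with more than `p` Gateaux derivatives.
-/

set_option autoImplicit false

open Set Filter Topology
open scoped ENNReal ContDiff

namespace Pool.Agent.Results.MP_b5ab38_an.SpacesContainingLp

open NormsAndBumps

section comp
variable {X Y : Type*} [NormedAddCommGroup X] [NormedSpace ℝ X] [NormedAddCommGroup Y]
  [NormedSpace ℝ Y]

/-- Gateaux derivatives of `f ∘ (x₀ + T)`. -/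
theorem hasGD_comp {f : X → ℝ} (T : Y →L[ℝ] X) (x₀ : X) :
    ∀ (k : ℕ) (y : Y) (M : ContinuousMultilinearMap ℝ (fun _ : Fin k => X) ℝ),
      HasGD f k (x₀ + T y) M →
      HasGD (fun y => f (x₀ + T y)) k y (M.compContinuousLinearMap (fun _ => T))
  | 0, y, M, h => fun v => by
      rw [ContinuousMultilinearMap.compContinuousLinearMap_apply]
      exact h _
  | 1, y, M, h => fun v => by
      have h1 := h (T v)
      rw [ContinuousMultilinearMap.compContinuousLinearMap_apply]
      refine h1.congr fun t => ?_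
      show (f (x₀ + T y + t • T v) - f (x₀ + T y)) / t =
        (f (x₀ + T (y + t • v)) - f (x₀ + T y)) / t
      rw [map_add, map_smul, ← add_assoc]
  | k + 2, y, M, h => by
      obtain ⟨⟨D, hD1, hD2⟩, hsym⟩ := h
      have hc : Continuous (fun y : Y => x₀ + T y) := by fun_prop
      refine ⟨⟨fun y => (D (x₀ + T y)).compContinuousLinearMap (fun _ => T), ?_, ?_⟩, ?_⟩
      · have h1 : ∀ᶠ z in 𝓝 y, HasGD f (k + 1) (x₀ + T z) (D (x₀ + T z)) :=
          (hc.tendsto y).eventually hD1
        filter_upwards [h1] with z hz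
        exact hasGD_comp T x₀ (k + 1) z _ hz
      · intro v
        have h1 := hD2 (fun i => T (v i))
        rw [ContinuousMultilinearMap.compContinuousLinearMap_apply]
        refine h1.congr fun t => ?_
        show (D (x₀ + T y + t • T (v (Fin.last (k + 1)))) (Fin.init fun i => T (v i)) -
          D (x₀ + T y) (Fin.init fun i => T (v i))) / t =
          (D (x₀ + T (y + t • v (Fin.last (k + 1)))) (fun i => T (Fin.init v i)) -
          D (x₀ + T y) (fun i => T (Fin.init v i))) / t
        rw [map_add, map_smul, ← add_assoc]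
        rfl
      · intro σ v
        rw [ContinuousMultilinearMap.compContinuousLinearMap_apply,
          ContinuousMultilinearMap.compContinuousLinearMap_apply]
        exact hsym σ (fun i => T (v i))

theorem gateaux_comp {f : X → ℝ} {k : ℕ} (T : Y →L[ℝ] X) (x₀ : X) {y : Y}
    (h : GateauxDiffAt k f (x₀ + T y)) : GateauxDiffAt k (fun y => f (x₀ + T y)) y := by
  obtain ⟨M, hM⟩ := h
  exact ⟨_, hasGD_comp T x₀ k y M hM⟩

end comp

/-- Let `1 ≤ p < ∞` be real and not an even integer, let `n > p`, and let `X` be a real normed space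
which contains an isomorphic copy of `ℓ_p`. Then `X` admits neither an equivalent norm that is `n`
times Gateaux differentiable at all points except `0` nor a continuous `n` times Gateaux
differentiable bump. On the other hand every real normed space admits a (possibly discontinuous)
bump which is `k` times Gateaux differentiable for every `k`. -/
theorem result :
    (∀ (p : ℝ≥0∞) [Fact (1 ≤ p)], p ≠ ⊤ → (∀ m : ℕ, p ≠ 2 * m) → ∀ n : ℕ, p < n →
      ∀ (X : Type) [NormedAddCommGroup X] [NormedSpace ℝ X]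
        (T : lp (fun _ : ℕ => ℝ) p →L[ℝ] X) (c : ℝ), 0 < c → (∀ x, c * ‖x‖ ≤ ‖T x‖) →
        (¬ ∃ N : X → ℝ, IsEquivNorm N ∧ ∀ x, x ≠ 0 → GateauxDiffAt n N x) ∧
        (¬ ∃ b : X → ℝ, Continuous b ∧ IsBump b ∧ ∀ x, GateauxDiffAt n b x)) ∧
    (∀ (X : Type) [NormedAddCommGroup X] [NormedSpace ℝ X],
      ∃ b : X → ℝ, IsBump b ∧ ∀ (k : ℕ) (x : X), GateauxDiffAt k b x) := by
  constructor
  · intro p _ hpt hodd' n hn X _ _ T c hc hT
    have : Fact (p ≠ ⊤) := ⟨hpt⟩
    have hodd : ∀ k : ℕ, p.toReal ≠ 2 * k := by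
      intro k h
      apply hodd' k
      rw [← ENNReal.ofReal_toReal hpt, h, ENNReal.ofReal_mul (by norm_num)]
      simp
    have hn' : p.toReal < n := by
      have h1 := (ENNReal.toReal_lt_toReal hpt (ENNReal.natCast_ne_top n)).2 hn
      simpa using h1
    constructor
    · rintro ⟨N, hN, hG⟩
      obtain ⟨a, C, ha, hC, haC⟩ := hN.equiv
      have hT0 : ∀ x : lp (fun _ : ℕ => ℝ) p, x ≠ 0 → (0 : X) + T x ≠ 0 := by
        intro x hx h0
        rw [zero_add] at h0
        have h1 := hT x
        rw [h0, norm_zero] at h1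
        have h2 : 0 < c * ‖x‖ := mul_pos hc (norm_pos_iff.2 hx)
        linarith
      obtain ⟨M, hM⟩ := lineDerivs_of (f := fun y => N (0 + T y)) (n := n) (U := {0}ᶜ)
        isOpen_compl_singleton (fun x hx => gateaux_comp T 0 (hG _ (hT0 x hx)))
      refine H312Gat.no_norm_derivs (q := fun y => N (0 + T y)) hodd hn' (a := a * c)
        (b := C * ‖T‖) ?_ ?_ (mul_pos ha hc) ?_ M hM
      · intro x y
        simp only [zero_add, map_add]
        exact hN.add_le _ _
      · intro t x
        simp only [zero_add, map_smul]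
        exact hN.smul _ _
      · intro x
        simp only [zero_add]
        constructor
        · calc a * c * ‖x‖ = a * (c * ‖x‖) := by ring
            _ ≤ a * ‖T x‖ := mul_le_mul_of_nonneg_left (hT x) ha.le
            _ ≤ N (T x) := (haC _).1
        · calc N (T x) ≤ C * ‖T x‖ := (haC _).2
            _ ≤ C * (‖T‖ * ‖x‖) := mul_le_mul_of_nonneg_left (T.le_opNorm x) hC.le
            _ = C * ‖T‖ * ‖x‖ := by ring
    · rintro ⟨b, hb, ⟨⟨x₀, hx₀⟩, hbd⟩, hG⟩
      obtain ⟨M, hM⟩ := lineDerivs_of (f := fun y => b (x₀ + T y)) (n := n) (U := univ)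
        isOpen_univ (fun x _ => gateaux_comp T x₀ (hG _))
      obtain ⟨R, hR⟩ := hbd.exists_norm_le
      refine H312Gat.no_bump_derivs (g := fun y => b (x₀ + T y)) hodd hn' (by fun_prop)
        ⟨0, by simpa using hx₀⟩ (R := (R + ‖x₀‖) / c) ?_ M hM
      intro x hx
      have h1 : ‖x₀ + T x‖ ≤ R := hR _ (subset_tsupport b hx)
      have h2 : ‖T x‖ ≤ R + ‖x₀‖ := by
        calc ‖T x‖ = ‖(x₀ + T x) - x₀‖ := by rw [add_sub_cancel_left]
          _ ≤ ‖x₀ + T x‖ + ‖x₀‖ := norm_sub_le _ _
          _ ≤ R + ‖x₀‖ := by linarith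
      rw [le_div_iff₀ hc, mul_comm]
      exact (hT x).trans h2
  · intro X _ _
    obtain ⟨f, G, h0, h1, hG, hf⟩ := H312Gat.wild X
    refine ⟨f, ⟨⟨0, by rw [h0]; exact one_ne_zero⟩, ?_⟩, fun k x => ⟨_, hasGD_wild hG hf k x⟩⟩
    refine (Metric.isBounded_closedBall (x := (0 : X)) (r := 1)).subset ?_
    refine closure_minimal (fun x hx => ?_) Metric.isClosed_closedBall
    rw [mem_closedBall_zero_iff]
    by_contra hlt
    push Not at hlt
    exact hx (h1 x hlt.le)

end Pool.Agent.Results.MP_b5ab38_an.SpacesContainingLp
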